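import Pool.Agent.Y403.BJ.Sandwich

/-!
# Every problem between `BJIT` and its pointwise one-sided relaxation is `co-NP`-hard
-/

set_option autoImplicit false

namespace Pool.Agent.Results.MP_cedc2d_lc.EveryRelaxation

open Pool.Agent.NPC Pool.Agent.H577R2 Pool.Agent.Y403.BJ

/-- * Let `P` be any problem whose yes-instances contain those of `BJIT` and are contained in those
  of the relaxation `Pointwise` (for every time `y` separately there are natural numbers `x_i` with
  sum `y` such that `y r_i - x_i ≤ B` for all letters `i`). Then `P` is `co-NP`-hard, and if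
  `P` is in `NP` then `NP = co-NP`.
* In particular this holds for the variants of `BJIT` in which the deviations `x_{ik} - k r_i` of
  the word have to lie in a set `T I` (which may depend on the instance `I`) with
  `[-B, B] ⊆ T I ⊆ [-B, ∞)`, or with `[-B, B] ⊆ T I ⊆ (-∞, B]`; for example for the one-sided
  problems (only lateness, or only earliness, is bounded by `B`).
* `BJIT` itself is `co-NP`-complete. -/
theorem result :
    (∀ P : List ℕ × ℕ × ℕ → Prop, (∀ I, BJIT I → P I) → (∀ I, P I → Pointwise I) →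
      CoNPHardP P ∧ (InNPP P → ∀ L : Set (List Bool), InNP L ↔ InCoNP L)) ∧
    (∀ T : List ℕ × ℕ × ℕ → Set ℚ,
      (∀ I : List ℕ × ℕ × ℕ, ∀ x : ℚ, |x| ≤ (I.2.1 : ℚ) / I.2.2 → x ∈ T I) →
      ((∀ I : List ℕ × ℕ × ℕ, ∀ x ∈ T I, -((I.2.1 : ℚ) / I.2.2) ≤ x) ∨
        (∀ I : List ℕ × ℕ × ℕ, ∀ x ∈ T I, x ≤ (I.2.1 : ℚ) / I.2.2)) →
      CoNPHardP (Tol T) ∧ (InNPP (Tol T) → ∀ L : Set (List Bool), InNP L ↔ InCoNP L)) ∧
    InCoNPP BJIT ∧ CoNPHardP BJIT ∧
    (InNPP BJIT ↔ ∀ L : Set (List Bool), InNP L ↔ InCoNP L) := by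
  refine ⟨fun P h1 h2 => ⟨between_hard h1 h2, between_inNP h1 h2⟩, fun T hT h => ?_,
    Pool.Agent.NPC.H577R2.bjit_inCoNP, Pool.Agent.NPC.H577R2.bjit_hard,
    Pool.Agent.NPC.H577R2.bjit_inNP_iff⟩
  rcases h with h | h
  · exact ⟨between_hard (tol_of_bjit hT) (pointwise_of_late h),
      between_inNP (tol_of_bjit hT) (pointwise_of_late h)⟩
  · exact ⟨between_hard (tol_of_bjit hT) (pointwise_of_early h),
      between_inNP (tol_of_bjit hT) (pointwise_of_early h)⟩

end Pool.Agent.Results.MP_cedc2d_lc.EveryRelaxation
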